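import Pool.Agent.Run7.h668.TK.Iface

/-!
# Piece PSM of project TK (helper668), by helper834
-/

set_option autoImplicit false
set_option linter.all false

namespace Run7.h834.TK.PSM

open Polynomial Pool.Agent.Run7.h668.TK

theorem tt_eval (k c : ℕ) : (tt k c).eval 1 = C (X ^ c) := by
  simp [tt]

theorem gx_eval (R : List ℕ) : (gx R).eval 1 =
    C ((1 : ℚ[X]) - (R.map fun a => X ^ (R.sum - a)).sum +
      ((R.length - 1 : ℕ) : ℚ[X]) * X ^ R.sum) := by
  have h1 : ∀ (L : List ℕ) (k : ℕ) (g : ℕ → ℕ), ((L.map fun a => tt k (g a)).sum).eval 1 =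
      C ((L.map fun a => (X : ℚ[X]) ^ (g a)).sum) := by
    intro L k g
    induction L with
    | nil => simp
    | cons b L ih => simp only [List.map_cons, List.sum_cons, eval_add, ih, tt_eval, C_add]
  simp only [gx, eval_add, eval_sub, eval_one, eval_mul, eval_natCast, tt_eval]
  rw [h1 R (R.length - 1) (fun a => R.sum - a)]
  simp

theorem qn_mul (k : ℕ) : (1 - X) * qn k = 1 - X ^ k := by
  rw [qn]; exact mul_neg_geom_sum X k

/-- `(1 - X) G_R` -/
theorem gR_mul (R : List ℕ) (hR : 1 ≤ R.length) :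
    (1 : ℚ[X]) - (R.map fun a => X ^ (R.sum - a)).sum + ((R.length - 1 : ℕ) : ℚ[X]) * X ^ R.sum =
      (1 - X) * gR R := by
  have h1 : ∀ (L : List ℕ) (h : ℕ), (∀ a ∈ L, a ≤ h) →
      (1 - X) * (L.map fun a => (X : ℚ[X]) ^ (h - a) * qn a).sum =
        (L.map fun a => (X : ℚ[X]) ^ (h - a)).sum - (L.length : ℚ[X]) * X ^ h := by
    intro L h hL
    induction L with
    | nil => simp
    | cons b L ih =>
      simp only [List.map_cons, List.sum_cons, List.length_cons]
      rw [mul_add, ih fun a ha => hL a (List.mem_cons_of_mem _ ha)]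
      have h2 : (1 - X) * (X ^ (h - b) * qn b) = (X : ℚ[X]) ^ (h - b) - X ^ h := by
        calc (1 - X) * (X ^ (h - b) * qn b) = X ^ (h - b) * ((1 - X) * qn b) := by ring
          _ = X ^ (h - b) * (1 - X ^ b) := by rw [qn_mul]
          _ = X ^ (h - b) - X ^ (h - b + b) := by rw [pow_add]; ring
          _ = _ := by rw [Nat.sub_add_cancel (hL b List.mem_cons_self)]
      rw [h2]
      push_cast
      ring
  have h3 : ∀ a ∈ R, a ≤ R.sum := fun b hb => List.single_le_sum (fun _ _ => Nat.zero_le _) b hb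
  rw [gR, mul_sub, qn_mul, h1 R R.sum h3]
  obtain ⟨N, hN⟩ : ∃ N, R.length = N + 1 := ⟨R.length - 1, by omega⟩
  rw [hN, Nat.add_sub_cancel]
  push_cast
  ring

theorem cyc_eval (cyc : List (ℕ × ℕ)) :
    ((cyc.map fun p => uu * (1 - tt p.1 p.2)).prod).eval 1 =
      X ^ cyc.length * C ((1 - X) ^ cyc.length * ((cyc.map Prod.snd).map qn).prod) := by
  induction cyc with
  | nil => simp
  | cons p cyc ih =>
    simp only [List.map_cons, List.prod_cons, List.length_cons]
    rw [eval_mul, ih, eval_mul, eval_sub, eval_one, tt_eval]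
    have h1 : eval 1 uu = X := by simp [uu]
    rw [h1]
    have h2 : (1 : Polynomial (Polynomial ℚ)) - C (X ^ p.2) = C ((1 - X) * qn p.2) := by
      rw [qn_mul]; simp
    rw [h2, pow_succ, pow_succ, mul_comm ((1 - X : ℚ[X]) ^ cyc.length) (1 - X)]
    simp only [C_mul]
    ring

theorem st_eval (cyc : List (ℕ × ℕ)) (R : List ℕ) (hR : 1 ≤ R.length) :
    (st cyc R).eval 1 = C ((((R.length - 2).factorial : ℕ) : ℚ[X]) *
      ((1 - X) ^ (cyc.length + 1) * (((cyc.map Prod.snd).map qn).prod * gR R))) *
      X ^ cyc.length := by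
  rw [st, eval_mul, eval_mul, cyc_eval, gx_eval, gR_mul R hR, eval_natCast, pow_succ]
  have h1 : (((R.length - 2).factorial : ℕ) : Polynomial (Polynomial ℚ)) =
      C (((R.length - 2).factorial : ℕ) : ℚ[X]) := by simp
  rw [h1]
  simp only [C_mul]
  ring

theorem t_PSM (hEPS : S_EPS) (hPOS : S_POS) : S_PSM := by
  intro n M q m hm hq W hW
  induction hW using AddSubmonoid.closure_induction with
  | mem W hW =>
    obtain ⟨cyc, R, ⟨h1, h2, h3, h4, h5⟩, rfl⟩ := hW
    rw [st_eval cyc R (by omega)]
    simp only [coeff_C_mul_X_pow]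
    by_cases hmc : m = cyc.length
    · simp only [if_pos hmc, coeff_natCast_mul]
      obtain ⟨Y, hY⟩ : ∃ Y, Y = ((cyc.map Prod.snd).map qn).prod * gR R := ⟨_, rfl⟩
      rw [← hY, ← hmc]
      have h6 := hEPS m q Y
      rw [Finset.sum_range_succ, Nat.sub_self, Nat.cast_zero, zero_pow (by omega), zero_mul,
        add_zero] at h6
      have h7 : ∑ b ∈ Finset.range q, ((((R.length - 2).factorial : ℕ) : ℚ) *
          (((1 - X) ^ (m + 1) * Y).coeff b)) * ((q - b : ℕ) : ℚ) ^ m =
          (((R.length - 2).factorial : ℕ) : ℚ) * conv (eul m) Y q := by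
        rw [← h6, Finset.mul_sum]
        refine Finset.sum_congr rfl fun b _ => ?_
        ring
      rw [h7]
      refine mul_nonneg (by positivity) ?_
      have hlen : (cyc.map Prod.snd).length = m := by rw [List.length_map, hmc]
      have h8 := hPOS (cyc.map Prod.snd) R (by
          intro h
          rw [h] at hlen
          simp at hlen
          omega) (by
          intro h
          rw [h] at h2
          simp at h2) (by
          intro a ha
          obtain ⟨p, hp, rfl⟩ := List.mem_map.1 ha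
          exact (h1 p hp).2) h3 q (by rw [h5]; exact hq)
      rw [hlen, ← hY] at h8
      exact h8
    · simp only [if_neg hmc, coeff_zero, zero_mul, Finset.sum_const_zero, le_refl]
  | zero => simp
  | add P Q hP hQ ihP ihQ =>
    simp only [eval_add, coeff_add, add_mul, Finset.sum_add_distrib]
    exact add_nonneg ihP ihQ

end Run7.h834.TK.PSM

namespace Run7.h834.TK

open Pool.Agent.Run7.h668.TK in
theorem t_PSM : S_EPS → S_POS → S_PSM := PSM.t_PSM

end Run7.h834.TK
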