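import Pool.Agent.Run7.h668.TK.Iface

/-!
# Piece PSZ of project TK (helper668), by helper834
-/

set_option autoImplicit false
set_option linter.all false

namespace Run7.h834.TK

open Polynomial Pool.Agent.Run7.h668.TK

theorem tt_mul (k c k' c' : ℕ) : tt k c * tt k' c' = tt (k + k') (c + c') := by
  simp only [tt]
  rw [pow_add X k k', pow_add X c c', C_mul, C_mul]
  ring

theorem opE_add (P Q : BB) : opE (P + Q) = opE P + opE Q := by
  simp only [opE, derivative_add, mul_add]

theorem opE_sub (P Q : BB) : opE (P - Q) = opE P - opE Q := by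
  simp only [opE, derivative_sub]; ring

theorem opE_nat (n : ℕ) (P : BB) : opE ((n : BB) * P) = (n : BB) * opE P := by
  simp only [opE, derivative_mul, derivative_natCast, zero_mul, zero_add]
  ring

theorem opE_uu (P : BB) : opE (uu * P) = uu * opE P := by
  simp only [opE, uu, derivative_mul, derivative_C, zero_mul, zero_add]
  ring

theorem opE_one : opE 1 = 0 := by simp [opE]

theorem opE_tt (k c : ℕ) : opE (tt k c) = (k : BB) * tt k c := by
  simp only [opE, tt]
  rw [derivative_mul, derivative_C, mul_zero, add_zero, derivative_X_pow]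
  rcases k with _ | k
  · simp
  · rw [Nat.add_sub_cancel, pow_succ]
    have : (C (((k + 1 : ℕ) : Polynomial (Polynomial ℚ))) : BB) = ((k + 1 : ℕ) : BB) := by simp
    rw [this]
    ring

theorem opE_sum (k : ℕ) (g : ℕ → ℕ) (L : List ℕ) :
    opE ((L.map fun a => tt k (g a)).sum) = (k : BB) * (L.map fun a => tt k (g a)).sum := by
  induction L with
  | nil => simp [opE]
  | cons b L ih =>
    simp only [List.map_cons, List.sum_cons]
    rw [opE_add, opE_tt, ih]; ring

theorem shift_sum (a k : ℕ) (g : ℕ → ℕ) (L : List ℕ) :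
    tt 1 a * (L.map fun b => tt k (g b)).sum = (L.map fun b => tt (k + 1) (g b + a)).sum := by
  induction L with
  | nil => simp
  | cons b L ih =>
    simp only [List.map_cons, List.sum_cons]
    rw [mul_add, ih, tt_mul, add_comm 1 k, add_comm a (g b)]

theorem key (a : ℕ) (R : List ℕ) (hR : 1 ≤ R.length) (hle : ∀ b ∈ R, b ≤ R.sum) :
    ((R.length - 1 : ℕ) : BB) * gx R - (1 - tt 1 a) * opE (gx R) =
      ((R.length - 1 : ℕ) : BB) * gx (a :: R) := by
  obtain ⟨N, hN⟩ : ∃ N, R.length = N + 1 := ⟨R.length - 1, by omega⟩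
  have h1 : opE (gx R) = -((N : BB) * (R.map fun b => tt N (R.sum - b)).sum) +
      (N : BB) * (((N + 1 : ℕ) : BB) * tt (N + 1) R.sum) := by
    simp only [gx, hN, Nat.add_sub_cancel]
    rw [opE_add, opE_sub, opE_one, opE_sum N (fun b => R.sum - b), opE_nat, opE_tt]
    ring
  have h2 : gx (a :: R) = 1 - (tt (N + 1) R.sum +
      tt 1 a * (R.map fun b => tt N (R.sum - b)).sum) +
      ((N + 1 : ℕ) : BB) * (tt 1 a * tt (N + 1) R.sum) := by
    rw [shift_sum a N (fun b => R.sum - b), tt_mul]
    simp only [gx, List.map_cons, List.sum_cons, List.length_cons, hN, Nat.add_sub_cancel]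
    have h3 : (R.map fun b => tt (N + 1) (a + R.sum - b)) =
        R.map fun b => tt (N + 1) (R.sum - b + a) := by
      apply List.map_congr_left
      intro b hb
      have := hle b hb
      congr 1
      omega
    rw [h3, Nat.add_sub_cancel_left, add_comm 1 (N + 1)]
  rw [h1, h2]
  simp only [gx, hN, Nat.add_sub_cancel]
  push_cast
  ring

theorem ins_nat (N a n : ℕ) (P : BB) :
    ins N a ((n : BB) * P) = (n : BB) * ins N a P := by
  simp only [ins, opE_nat]; ring

theorem ins_uu (N a : ℕ) (P : BB) : ins N a (uu * P) = uu * ins N a P := by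
  simp only [ins, opE_uu]; ring

theorem ins_add (N a : ℕ) (P Q : BB) : ins N a (P + Q) = ins N a P + ins N a Q := by
  simp only [ins, opE_add]; ring

theorem le_sum_of_mem (R : List ℕ) : ∀ b ∈ R, b ≤ R.sum := by
  intro b hb
  exact List.single_le_sum (fun _ _ => Nat.zero_le _) b hb

theorem WW_form (c c' : ℕ) (ℓ : List ℕ) : ∃ V : BB,
    WW c c' ℓ = ((ℓ.length.factorial : ℕ) : BB) * gx (ℓ ++ [c, c']) + uu * V := by
  induction ℓ with
  | nil =>
    refine ⟨0, ?_⟩
    simp only [WW, gx, List.nil_append, List.map_cons, List.map_nil, List.sum_cons, List.sum_nil,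
      List.length_cons, List.length_nil, Nat.factorial_zero]
    have h1 : c + (c' + 0) - c = c' := by omega
    have h2 : c + (c' + 0) - c' = c := by omega
    rw [h1, h2]
    have h3 : tt (0 + 1 + 1) (c + (c' + 0)) = tt 1 c * tt 1 c' := by rw [tt_mul]; rfl
    rw [h3]
    simp only [zero_add, Nat.add_sub_cancel, Nat.cast_one, mul_zero, add_zero]
    ring
  | cons a ℓ ih =>
    obtain ⟨V, hV⟩ := ih
    have hlen : (ℓ ++ [c, c']).length - 1 = ℓ.length + 1 := by simp
    have hk := key a (ℓ ++ [c, c']) (by simp) (le_sum_of_mem _)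
    rw [hlen] at hk
    refine ⟨((ℓ.length.factorial : ℕ) : BB) * ((1 - tt 1 a) * gx (ℓ ++ [c, c'])) +
      ins (ℓ.length + 1) a V, ?_⟩
    simp only [WW]
    rw [hV, ins_add, ins_nat, ins_uu]
    have h1 : ins (ℓ.length + 1) a (gx (ℓ ++ [c, c'])) =
        uu * ((1 - tt 1 a) * gx (ℓ ++ [c, c'])) +
          ((ℓ.length + 1 : ℕ) : BB) * gx (a :: (ℓ ++ [c, c'])) := by
      rw [← hk]
      simp only [ins]
      ring
    rw [h1, List.length_cons, Nat.factorial_succ, List.cons_append]
    push_cast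
    ring

theorem tt_eval (k c : ℕ) : (tt k c).eval 1 = C (X ^ c) := by
  simp [tt]

theorem gx_eval (R : List ℕ) : (gx R).eval 1 =
    C ((1 : ℚ[X]) - (R.map fun a => X ^ (R.sum - a)).sum +
      ((R.length - 1 : ℕ) : ℚ[X]) * X ^ R.sum) := by
  have h1 : ∀ (L : List ℕ) (k : ℕ) (g : ℕ → ℕ), ((L.map fun a => tt k (g a)).sum).eval 1 =
      C ((L.map fun a => (X : ℚ[X]) ^ (g a)).sum) := by
    intro L k g
    induction L with
    | nil => simp
    | cons b L ih => simp only [List.map_cons, List.sum_cons, eval_add, ih, tt_eval, C_add]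
  simp only [gx, eval_add, eval_sub, eval_one, eval_mul, eval_natCast, tt_eval]
  rw [h1 R (R.length - 1) (fun a => R.sum - a)]
  simp

theorem t_PSZ (hPOZ : S_POZ) : S_PSZ := by
  intro c c' ℓ q hc hc' hℓ hq hle
  obtain ⟨V, hV⟩ := WW_form c c' ℓ
  have h1 : ((WW c c' ℓ).eval 1).coeff 0 = ((ℓ.length.factorial : ℕ) : ℚ[X]) *
      ((1 : ℚ[X]) - ((ℓ ++ [c, c']).map fun a => X ^ ((ℓ ++ [c, c']).sum - a)).sum +
      (((ℓ ++ [c, c']).length - 1 : ℕ) : ℚ[X]) * X ^ (ℓ ++ [c, c']).sum) := by
    rw [hV, eval_add, eval_mul, eval_mul, eval_natCast, gx_eval, coeff_add]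
    have h2 : (eval 1 uu * eval 1 V).coeff 0 = 0 := by
      simp [uu, mul_coeff_zero]
    rw [h2, add_zero, mul_coeff_zero, coeff_C_zero]
    congr 1
    simp
  rw [h1]
  simp only [coeff_natCast_mul]
  rw [← Finset.mul_sum]
  have h2 := hPOZ (ℓ ++ [c, c']) q (by simp) hq hle
  rw [h2, mul_one]
  positivity

end Run7.h834.TK
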